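import Pool.Agent.W323.PT.Stm

/-!
Project PT (helper323, MP_d085fd_co): all block tables.
-/

set_option autoImplicit false

namespace Pool.Agent.W925.PT.Blk

open Pool.Agent.W323.PT

/-- reflection of a configuration -/
def rf (P : Bool → ℕ → Pt) : Bool → ℕ → Pt := fun b i => ((P b i).1, -(P b i).2)

/-- exchange of the letters -/
def sw (P : Bool → ℕ → Pt) : Bool → ℕ → Pt := fun b i => P (!b) i

theorem o_rf (P : Bool → ℕ → Pt) (b1 b2 b3 : Bool) (i j k : ℕ) :
    o (rf P b1 i) (rf P b2 j) (rf P b3 k) = -o (P b1 i) (P b2 j) (P b3 k) := by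
  simp only [o, rf]; ring

theorem hom_rf (m : ℕ) (P : Bool → ℕ → Pt) (a b c d : Bool) (h : Hom m P (blk a b c d)) :
    Hom m (rf P) (blk (!a) (!b) (!c) (!d)) := by
  intro i j k hij hjk hk b1 b2 b3
  have h1 := h i j k hij hjk hk b1 b2 b3
  rw [o_rf]
  have e : blk (!a) (!b) (!c) (!d) b1 b2 b3 = !(blk a b c d b1 b2 b3) := by
    cases b1 <;> cases b2 <;> cases b3 <;> rfl
  rw [e]
  constructor
  · intro h2
    have := h1.2 (by simpa using h2)
    linarith
  · intro h2
    have := h1.1 (by simpa using h2)
    linarith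

theorem hom_sw (m : ℕ) (P : Bool → ℕ → Pt) (a b c d : Bool) (h : Hom m P (blk a b c d)) :
    Hom m (sw P) (blk d c b a) := by
  intro i j k hij hjk hk b1 b2 b3
  have h1 := h i j k hij hjk hk (!b1) (!b2) (!b3)
  have e : blk d c b a b1 b2 b3 = blk a b c d (!b1) (!b2) (!b3) := by
    cases b1 <;> cases b2 <;> cases b3 <;> rfl
  rw [e]
  exact h1

theorem o_cyc (a b c : Pt) : o c a b = o a b c := by simp only [o]; ring

theorem o_swap (a b c : Pt) : o b a c = -o a b c := by simp only [o]; ring

theorem q_case (hSub : S_Sub) (hQ : S_Q4) (P : Bool → ℕ → Pt) (c d : Bool)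
    (h : Hom 96 P (blk true false c d)) : PatN 96 P := by
  have h1 := hQ (P false) (P true) ?_ ?_
  · refine hSub 19 96 P id (fun i j hij _ => hij) (fun i hi => by simp only [id]; omega) ?_
    have e : (fun (b : Bool) (i : ℕ) => if b = true then P true i else P false i) =
        fun b i => P b (id i) := by
      funext b i
      cases b <;> simp
    rw [← e]
    exact h1
  · intro i j k hij hjk hk
    exact (h i j k hij hjk (by omega) false false false).1 rfl
  · intro i j k hij hj hk hki hkj
    rcases lt_or_gt_of_ne hki with h2 | h2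
    · exact (h k i j h2 hij (by omega) true false false).2 rfl
    · rcases lt_or_gt_of_ne hkj with h3 | h3
      · have := (h i k j h2 h3 (by omega) false true false).1 rfl
        rw [o_swap]
        linarith
      · have := (h i j k hij h3 (by omega) false false true).2 rfl
        rw [o_cyc]
        exact this

theorem r_case (hR : S_Refl) (hSub : S_Sub) (hQ : S_Q4) (P : Bool → ℕ → Pt) (c d : Bool)
    (h : Hom 96 P (blk false true c d)) : PatN 96 P :=
  hR 96 P (q_case hSub hQ (rf P) (!c) (!d) (hom_rf 96 P false true c d h))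

theorem t_case (hR : S_Refl) (hS : S_Swap) (hSub : S_Sub) (hQ : S_Q4) (hN : S_Nest) (hC : S_Cross)
    (P : Bool → ℕ → Pt) (c d : Bool) (h : Hom 96 P (blk true true c d)) : PatN 96 P := by
  cases c <;> cases d
  · -- nested
    refine hSub 20 96 P id (fun i j hij _ => hij) (fun i hi => by simp only [id]; omega) ?_
    apply hN
    intro i j k hij hjk hk b1 b2 b3
    exact h i j k hij hjk (by omega) b1 b2 b3
  · -- c = false, d = true
    apply hS 96 P
    exact q_case hSub hQ (sw P) true true (hom_sw 96 P true true false true h)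
  · -- c = true, d = false
    apply hS 96 P
    exact r_case hR hSub hQ (sw P) true true (hom_sw 96 P true true true false h)
  · exact hC P h

theorem blk_all : S_Refl → S_Swap → S_Sub → S_Q4 → S_Nest → S_Cross → S_Blk := by
  intro hR hS hSub hQ hN hC P a b c d h
  cases a <;> cases b
  · exact hR 96 P (t_case hR hS hSub hQ hN hC (rf P) (!c) (!d) (hom_rf 96 P false false c d h))
  · exact r_case hR hSub hQ P c d h
  · exact q_case hSub hQ P c d h
  · exact t_case hR hS hSub hQ hN hC P c d h

end Pool.Agent.W925.PT.Blk
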